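import Mathlib

/-!
MP_562b47: one-variable lemmas for affine functions `α + β u`, `u` in the closed lower half plane.
-/

open MeasureTheory Set

set_option linter.unusedSectionVars false

namespace Pool.Agent.Lib.MP_562b47_mp.LWx

/-- the zero of `α + β u` is not in the open lower half plane -/
def Stab (α β : ℂ) : Prop := ∀ z : ℂ, z.im < 0 → α + β * z ≠ 0

theorem Stab.root {α β : ℂ} (h : Stab α β) (hβ : β ≠ 0) : 0 ≤ (-α / β).im := by
  by_contra hlt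
  push Not at hlt
  apply h (-α / β) hlt
  field_simp
  ring

/-- `|α + β u| ≤ (2 + R/τ) |α - i τ β|` for `Im u ≤ 0`, `|u| ≤ R` -/
theorem aff_stable {α β : ℂ} (h : Stab α β) {τ R : ℝ} (hτ : 0 < τ) {u : ℂ}
    (huR : ‖u‖ ≤ R) : ‖α + β * u‖ ≤ (2 + R / τ) * ‖α + β * (-(τ : ℂ) * Complex.I)‖ := by
  have hR : 0 ≤ R := (norm_nonneg _).trans huR
  by_cases hβ : β = 0
  · subst hβ
    simp only [zero_mul, add_zero]
    have : 0 ≤ R / τ := by positivity
    nlinarith [norm_nonneg α]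
  set z := -α / β with hz
  have hzi := h.root hβ
  have hα : α = -β * z := by rw [hz]; field_simp
  have e1 : α + β * u = β * (u - z) := by rw [hα]; ring
  have e2 : α + β * (-(τ : ℂ) * Complex.I) = β * (-(τ : ℂ) * Complex.I - z) := by rw [hα]; ring
  rw [e1, e2, norm_mul, norm_mul]
  have h1 : τ ≤ ‖-(τ : ℂ) * Complex.I - z‖ := by
    have := Complex.abs_im_le_norm (-(τ : ℂ) * Complex.I - z)
    have h2 : (-(τ : ℂ) * Complex.I - z).im = -(τ + z.im) := by simp; ring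
    rw [h2, abs_neg, abs_of_nonneg (by linarith)] at this
    linarith
  have h3 : ‖u - z‖ ≤ ‖u‖ + τ + ‖-(τ : ℂ) * Complex.I - z‖ := by
    have e3 : u - z = u + (τ : ℂ) * Complex.I + (-(τ : ℂ) * Complex.I - z) := by ring
    rw [e3]
    refine (norm_add_le _ _).trans (add_le_add ((norm_add_le _ _).trans ?_) le_rfl)
    rw [norm_mul, Complex.norm_I, mul_one, Complex.norm_real, Real.norm_of_nonneg hτ.le]
  have h4 : ‖u‖ + τ ≤ (1 + R / τ) * ‖-(τ : ℂ) * Complex.I - z‖ := by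
    calc ‖u‖ + τ ≤ R + τ := by linarith
      _ = (1 + R / τ) * τ := by field_simp; ring
      _ ≤ _ := by gcongr
  calc ‖β‖ * ‖u - z‖ ≤ ‖β‖ * ((2 + R / τ) * ‖-(τ : ℂ) * Complex.I - z‖) := by
        gcongr
        linarith
    _ = _ := by ring

theorem integral_sq_affine (α β : ℂ) (l r : ℝ) :
    ∫ v in l..r, ‖α + β * (v : ℂ)‖ ^ 2 =
      (r - l) * ‖α + β * (((l + r) / 2 : ℝ) : ℂ)‖ ^ 2 + ‖β‖ ^ 2 * (r - l) ^ 3 / 12 := by
  have h1 : ∀ v : ℝ, ‖α + β * (v : ℂ)‖ ^ 2 =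
      ‖α‖ ^ 2 + 2 * ((starRingEnd ℂ) α * β).re * v + ‖β‖ ^ 2 * v ^ 2 := by
    intro v
    rw [← Complex.normSq_eq_norm_sq, ← Complex.normSq_eq_norm_sq, ← Complex.normSq_eq_norm_sq,
      Complex.normSq_apply, Complex.normSq_apply, Complex.normSq_apply]
    simp
    ring
  simp_rw [h1]
  rw [intervalIntegral.integral_add (Continuous.intervalIntegrable (by fun_prop) _ _)
      (Continuous.intervalIntegrable (by fun_prop) _ _),
    intervalIntegral.integral_add (Continuous.intervalIntegrable (by fun_prop) _ _)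
      (Continuous.intervalIntegrable (by fun_prop) _ _),
    intervalIntegral.integral_const, intervalIntegral.integral_const_mul,
    intervalIntegral.integral_const_mul, integral_id, integral_pow]
  simp only [smul_eq_mul]
  ring

/-- one-variable `L²` bound -/
theorem aff_L2 (α β : ℂ) {c R l r γ : ℝ} (hl : -c ≤ l) (hr : r ≤ c) (hlr : l ≤ r) (hγ : 0 ≤ γ)
    (hγ1 : γ ≤ 1) {u : ℂ} (hu : ‖u‖ ≤ R) :
    (r - l) ^ 3 * ‖α + β * u‖ ^ 2 ≤ (8 * c ^ 2 + 24 * (R + c + 1) ^ 2) *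
      ∫ v in l..r, ‖α + β * ((v : ℂ) - γ * Complex.I)‖ ^ 2 := by
  have hR : 0 ≤ R := (norm_nonneg _).trans hu
  have hc : 0 ≤ c := by linarith
  have h1 : ∀ v : ℝ, α + β * ((v : ℂ) - γ * Complex.I) = (α - β * γ * Complex.I) + β * (v : ℂ) := by
    intro v; ring
  simp_rw [h1]
  rw [integral_sq_affine]
  set m : ℝ := (l + r) / 2 with hm
  set N := ‖α - β * γ * Complex.I + β * (m : ℂ)‖ ^ 2 with hN
  have h2 : ‖α + β * u‖ ^ 2 ≤ 2 * N + 2 * (‖β‖ ^ 2 * (R + c + 1) ^ 2) := by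
    have h3 : α + β * u = (α - β * γ * Complex.I + β * (m : ℂ)) +
        β * (u + γ * Complex.I - (m : ℂ)) := by ring
    have h4 : ‖u + γ * Complex.I - (m : ℂ)‖ ≤ R + c + 1 := by
      refine (norm_sub_le _ _).trans ?_
      have h5 : ‖u + γ * Complex.I‖ ≤ R + 1 := by
        refine (norm_add_le _ _).trans ?_
        rw [norm_mul, Complex.norm_I, mul_one, Complex.norm_real, Real.norm_of_nonneg hγ]
        linarith
      have h6 : ‖(m : ℂ)‖ ≤ c := by
        rw [Complex.norm_real, Real.norm_eq_abs, abs_le]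
        constructor <;> rw [hm] <;> linarith
      linarith
    rw [h3]
    have h7 := norm_add_le (α - β * γ * Complex.I + β * (m : ℂ)) (β * (u + γ * Complex.I - (m : ℂ)))
    have h8 : ‖β * (u + γ * Complex.I - (m : ℂ))‖ ≤ ‖β‖ * (R + c + 1) := by
      rw [norm_mul]; gcongr
    have h9 : ‖(α - β * γ * Complex.I + β * (m : ℂ)) + β * (u + γ * Complex.I - (m : ℂ))‖ ^ 2 ≤
        (‖α - β * γ * Complex.I + β * (m : ℂ)‖ + ‖β‖ * (R + c + 1)) ^ 2 := by
      gcongr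
      linarith
    refine h9.trans ?_
    rw [hN]
    nlinarith [sq_nonneg (‖α - β * γ * Complex.I + β * (m : ℂ)‖ - ‖β‖ * (R + c + 1))]
  have hL : 0 ≤ r - l := by linarith
  have hL2 : r - l ≤ 2 * c := by linarith
  have hN0 : 0 ≤ N := by positivity
  have h10 : (r - l) ^ 3 * (2 * N) ≤ 8 * c ^ 2 * ((r - l) * N) := by
    have : (r - l) ^ 2 ≤ 4 * c ^ 2 := by nlinarith
    calc (r - l) ^ 3 * (2 * N) = 2 * (r - l) ^ 2 * ((r - l) * N) := by ring
      _ ≤ 2 * (4 * c ^ 2) * ((r - l) * N) := by gcongr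
      _ = _ := by ring
  have h11 : (r - l) ^ 3 * (2 * (‖β‖ ^ 2 * (R + c + 1) ^ 2)) =
      24 * (R + c + 1) ^ 2 * (‖β‖ ^ 2 * (r - l) ^ 3 / 12) := by ring
  have h12 : 0 ≤ ‖β‖ ^ 2 * (r - l) ^ 3 / 12 := by positivity
  calc (r - l) ^ 3 * ‖α + β * u‖ ^ 2 ≤ (r - l) ^ 3 * (2 * N + 2 * (‖β‖ ^ 2 * (R + c + 1) ^ 2)) := by
        gcongr
    _ ≤ 8 * c ^ 2 * ((r - l) * N) + 24 * (R + c + 1) ^ 2 * (‖β‖ ^ 2 * (r - l) ^ 3 / 12) := by
        rw [mul_add]; linarith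
    _ ≤ (8 * c ^ 2 + 24 * (R + c + 1) ^ 2) * ((r - l) * N + ‖β‖ ^ 2 * (r - l) ^ 3 / 12) := by
        have e1 : 0 ≤ 8 * c ^ 2 * (‖β‖ ^ 2 * (r - l) ^ 3 / 12) := by positivity
        have e2 : 0 ≤ 24 * (R + c + 1) ^ 2 * ((r - l) * N) := by positivity
        nlinarith

end Pool.Agent.Lib.MP_562b47_mp.LWx
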